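import Mathlib

/-!
# The discrete k-spherical maximal operator

Definitions for `MP_ca3f0d_an` and the arithmetic of the spheres of radius `2 ^ j` for `k = 2 ^ a`.
-/

set_option autoImplicit false

namespace Pool.Agent.Y332.KSph

open scoped ENNReal

/-- The `k`-sphere of radius `r` in `ℤ ^ d`: all `m` with `|m_1|^k + ... + |m_d|^k = r^k`. -/
def Sph (d k : ℕ) (r : ℝ) : Set (Fin d → ℤ) :=
  {m | ∑ i, |(m i : ℝ)| ^ k = r ^ k}

/-- The number of lattice points on the sphere (a finite set as soon as `k ≥ 1`,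
see `sph_finite`). -/
noncomputable def Npt (d k : ℕ) (r : ℝ) : ℕ := (Sph d k r).ncard

/-- The admissible radii: `r > 0`, `r ^ k` a natural number, and the sphere is not empty. -/
def Radii (d k : ℕ) : Set ℝ :=
  {r | 0 < r ∧ (∃ n : ℕ, r ^ k = (n : ℝ)) ∧ 0 < Npt d k r}

/-- The spherical average `A_r f (x)`. -/
noncomputable def avg (d k : ℕ) (r : ℝ) (f : (Fin d → ℤ) → ℂ) (x : Fin d → ℤ) : ℂ :=
  ((Npt d k r : ℂ))⁻¹ * ∑ᶠ m ∈ Sph d k r, f (x - m)

/-- The maximal function `A_* f (x)`, with values in `[0, ∞]`. -/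
noncomputable def maxi (d k : ℕ) (f : (Fin d → ℤ) → ℂ) (x : Fin d → ℤ) : ℝ≥0∞ :=
  ⨆ r ∈ Radii d k, ENNReal.ofReal ‖avg d k r f x‖

/-- `ℓ^p` boundedness of the maximal operator: `‖A_* f‖_p ≤ C ‖f‖_p` for all `f` with
`‖f‖_p < ∞`, with one finite constant `C`. -/
def BoundedOn (d k : ℕ) (p : ℝ) : Prop :=
  ∃ C : ℝ, ∀ f : (Fin d → ℤ) → ℂ,
    (∑' x, (ENNReal.ofReal ‖f x‖) ^ p) ≠ ∞ →
    (∑' x, (maxi d k f x) ^ p) ^ (1 / p) ≤
      ENNReal.ofReal C * (∑' x, (ENNReal.ofReal ‖f x‖) ^ p) ^ (1 / p)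

/-- The function `δ_0`. -/
noncomputable def delta (d : ℕ) : (Fin d → ℤ) → ℂ := fun x => if x = 0 then 1 else 0

theorem sph_finite {d k : ℕ} (hk : 1 ≤ k) (r : ℝ) : (Sph d k r).Finite := by
  classical
  obtain ⟨B, hB⟩ := exists_nat_ge (|r ^ k|)
  refine Set.Finite.subset (Set.finite_Icc (fun _ : Fin d => -(B : ℤ)) (fun _ => (B : ℤ))) ?_
  intro m hm
  have hm' : ∑ i, |(m i : ℝ)| ^ k = r ^ k := hm
  have key : ∀ i, |(m i : ℝ)| ≤ B := by
    intro i
    have h1 : |(m i : ℝ)| ^ k ≤ r ^ k := by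
      rw [← hm']
      exact Finset.single_le_sum (f := fun i => |(m i : ℝ)| ^ k)
        (fun j _ => by positivity) (Finset.mem_univ i)
    have h2 : |(m i : ℝ)| ^ k ≤ B := (h1.trans (le_abs_self _)).trans hB
    by_cases h0 : m i = 0
    · rw [h0]; simp
    · have h3 : (1 : ℝ) ≤ |(m i : ℝ)| := by
        have : (1 : ℤ) ≤ |m i| := Int.one_le_abs h0
        exact_mod_cast this
      calc |(m i : ℝ)| = |(m i : ℝ)| ^ 1 := (pow_one _).symm
        _ ≤ |(m i : ℝ)| ^ k := pow_le_pow_right₀ h3 hk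
        _ ≤ B := h2
  refine ⟨fun i => ?_, fun i => ?_⟩
  · have := (abs_le.mp (key i)).1
    exact_mod_cast this
  · have := (abs_le.mp (key i)).2
    exact_mod_cast this

/-- Odd integers: `x ^ (2 ^ a) = 1` modulo `2 ^ (a + 2)` for `a ≥ 1`. -/
theorem odd_pow (a : ℕ) (x : ℤ) (hx : Odd x) : (2 : ℤ) ^ (a + 3) ∣ x ^ (2 ^ (a + 1)) - 1 := by
  induction a with
  | zero =>
    obtain ⟨t, rfl⟩ := hx
    have h2 : Even (t * (t + 1)) := Int.even_mul_succ_self t
    obtain ⟨s, hs⟩ := h2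
    refine ⟨s, ?_⟩
    have : t * (t + 1) = s + s := hs
    norm_num
    nlinarith [this]
  | succ a ih =>
    obtain ⟨s, hs⟩ := ih
    have h1 : x ^ (2 ^ (a + 1)) = 1 + 2 ^ (a + 3) * s := by linarith
    have h2 : x ^ (2 ^ (a + 1 + 1)) = (x ^ (2 ^ (a + 1))) ^ 2 := by
      rw [← pow_mul]; congr 1
    rw [h2, h1]
    refine ⟨s + 2 ^ (a + 2) * s ^ 2, ?_⟩
    ring

/-- If `k = 2 ^ a` with `a ≥ 2`, `d < 4 k`, and a sum of `d` `k`-th powers is divisible by `4 k`,
all terms are even. -/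
theorem all_even {a d : ℕ} (ha : 2 ≤ a) (hd : d < 2 ^ (a + 2)) (m : Fin d → ℤ)
    (h : (2 : ℤ) ^ (a + 2) ∣ ∑ i, (m i) ^ (2 ^ a)) : ∀ i, Even (m i) := by
  classical
  obtain ⟨b, rfl⟩ : ∃ b, a = b + 1 := ⟨a - 1, by omega⟩
  have hb : 1 ≤ b := by omega
  -- the number of odd terms
  set O : Finset (Fin d) := Finset.univ.filter (fun i => Odd (m i)) with hO
  have hmod : ∀ i, (2 : ℤ) ^ (b + 1 + 2) ∣ (m i) ^ (2 ^ (b + 1)) - (if Odd (m i) then 1 else 0) := by
    intro i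
    by_cases hi : Odd (m i)
    · rw [if_pos hi]; exact odd_pow b _ hi
    · rw [if_neg hi, sub_zero]
      have he : Even (m i) := Int.not_odd_iff_even.mp hi
      obtain ⟨t, ht⟩ := he.two_dvd
      rw [ht, mul_pow]
      refine Dvd.dvd.mul_right (pow_dvd_pow 2 ?_) _
      have : ∀ n : ℕ, 1 ≤ n → n + 1 + 2 ≤ 2 ^ (n + 1) := by
        intro n hn
        induction n with
        | zero => omega
        | succ n ih =>
          rcases Nat.eq_zero_or_pos n with h0 | h0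
          · subst h0; norm_num
          · have := ih h0
            rw [pow_succ]; omega
      exact this b hb
  have hsum : (2 : ℤ) ^ (b + 1 + 2) ∣ (O.card : ℤ) := by
    have h1 : (2 : ℤ) ^ (b + 1 + 2) ∣
        ∑ i, ((m i) ^ (2 ^ (b + 1)) - (if Odd (m i) then 1 else 0)) :=
      Finset.dvd_sum (fun i _ => hmod i)
    rw [Finset.sum_sub_distrib] at h1
    have h2 : (∑ i, (if Odd (m i) then (1 : ℤ) else 0)) = (O.card : ℤ) := by
      rw [Finset.sum_boole]
    rw [h2] at h1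
    have h3 := dvd_sub h h1
    simpa using h3
  have hcard : O.card = 0 := by
    have h1 : (2 : ℕ) ^ (b + 1 + 2) ∣ O.card := by exact_mod_cast hsum
    have h2 : O.card ≤ d := by
      calc O.card ≤ (Finset.univ : Finset (Fin d)).card := Finset.card_filter_le _ _
        _ = d := by simp
    exact Nat.eq_zero_of_dvd_of_lt h1 (lt_of_le_of_lt h2 hd)
  intro i
  have hi : i ∉ O := by
    rw [Finset.card_eq_zero.mp hcard]; simp
  rw [hO, Finset.mem_filter] at hi
  exact Int.not_odd_iff_even.mp (fun h => hi ⟨Finset.mem_univ _, h⟩)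

theorem mem_sph_iff {a d : ℕ} (ha : 1 ≤ a) (j : ℕ) (m : Fin d → ℤ) :
    m ∈ Sph d (2 ^ a) ((2 : ℝ) ^ j) ↔ ∑ i, (m i) ^ (2 ^ a) = (2 : ℤ) ^ (j * 2 ^ a) := by
  have heven : Even (2 ^ a) := by
    obtain ⟨b, rfl⟩ : ∃ b, a = b + 1 := ⟨a - 1, by omega⟩
    rw [pow_succ]; exact even_two.mul_left _
  unfold Sph
  rw [Set.mem_ofPred_eq]
  have h1 : ∀ i, |(m i : ℝ)| ^ (2 ^ a) = ((m i : ℝ)) ^ (2 ^ a) := fun i => heven.pow_abs _
  simp_rw [h1]
  rw [← pow_mul]
  constructor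
  · intro h; exact_mod_cast h
  · intro h; exact_mod_cast h

/-- The spheres of radius `2 ^ j` are the dilates of the sphere of radius `1`. -/
theorem sph_two_pow {a d : ℕ} (ha : 2 ≤ a) (hd : d < 2 ^ (a + 2)) (j : ℕ) :
    Sph d (2 ^ a) ((2 : ℝ) ^ j) = (fun m : Fin d → ℤ => (2 : ℤ) ^ j • m) '' Sph d (2 ^ a) 1 := by
  induction j with
  | zero => simp
  | succ j ih =>
    have hstep : Sph d (2 ^ a) ((2 : ℝ) ^ (j + 1)) =
        (fun m : Fin d → ℤ => (2 : ℤ) • m) '' Sph d (2 ^ a) ((2 : ℝ) ^ j) := by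
      ext m
      rw [mem_sph_iff (by omega)]
      constructor
      · intro h
        have hdiv : (2 : ℤ) ^ (a + 2) ∣ ∑ i, (m i) ^ (2 ^ a) := by
          rw [h]
          refine pow_dvd_pow 2 ?_
          have : ∀ n : ℕ, 2 ≤ n → n + 2 ≤ 2 ^ n := by
            intro n hn
            induction n with
            | zero => omega
            | succ n ih2 =>
              rcases Nat.lt_or_ge n 2 with h0 | h0
              · have : n = 1 := by omega
                subst this; norm_num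
              · have := ih2 h0
                rw [pow_succ]; omega
          have h2 := this a ha
          calc a + 2 ≤ 2 ^ a := h2
            _ = 1 * 2 ^ a := (one_mul _).symm
            _ ≤ (j + 1) * 2 ^ a := Nat.mul_le_mul_right _ (by omega)
        have hev := all_even ha hd m hdiv
        choose t ht using fun i => (hev i).two_dvd
        refine ⟨t, ?_, ?_⟩
        · rw [mem_sph_iff (by omega)]
          have h2 : ∑ i, (m i) ^ (2 ^ a) = (2 : ℤ) ^ (2 ^ a) * ∑ i, (t i) ^ (2 ^ a) := by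
            rw [Finset.mul_sum]
            refine Finset.sum_congr rfl (fun i _ => ?_)
            rw [ht i, mul_pow]
          rw [h2, add_mul, one_mul, pow_add, mul_comm ((2 : ℤ) ^ (j * 2 ^ a))] at h
          exact mul_left_cancel₀ (by positivity) h
        · funext i
          simp only [Pi.smul_apply, smul_eq_mul]
          exact (ht i).symm
      · rintro ⟨t, htm, rfl⟩
        rw [mem_sph_iff (by omega)] at htm
        have h2 : ∑ i, (((2 : ℤ) • t) i) ^ (2 ^ a) = (2 : ℤ) ^ (2 ^ a) * ∑ i, (t i) ^ (2 ^ a) := by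
          rw [Finset.mul_sum]
          refine Finset.sum_congr rfl (fun i _ => ?_)
          rw [Pi.smul_apply, smul_eq_mul, mul_pow]
        simp only [] at h2 ⊢
        rw [h2, htm, add_mul, one_mul, pow_add, mul_comm]
    rw [hstep, ih, Set.image_image]
    refine Set.image_congr (fun m _ => ?_)
    rw [smul_smul, pow_succ, mul_comm]

theorem npt_two_pow {a d : ℕ} (ha : 2 ≤ a) (hd : d < 2 ^ (a + 2)) (j : ℕ) :
    Npt d (2 ^ a) ((2 : ℝ) ^ j) = Npt d (2 ^ a) 1 := by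
  unfold Npt
  rw [sph_two_pow ha hd j]
  refine Set.ncard_image_of_injective _ ?_
  intro m m' h
  exact smul_right_injective _ (by positivity : (2 : ℤ) ^ j ≠ 0) h

/-- The point `2 ^ j e_0`. -/
def pt (d : ℕ) (j : ℕ) : Fin (d + 1) → ℤ := fun i => if i = 0 then 2 ^ j else 0

theorem pt_mem {a d : ℕ} (ha : 1 ≤ a) (j : ℕ) : pt d j ∈ Sph (d + 1) (2 ^ a) ((2 : ℝ) ^ j) := by
  rw [mem_sph_iff ha]
  unfold pt
  rw [Finset.sum_eq_single 0]
  · simp [pow_mul]
  · intro b _ hb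
    rw [if_neg hb]
    exact zero_pow (by positivity)
  · intro h; exact absurd (Finset.mem_univ _) h

theorem pt_injective (d : ℕ) : Function.Injective (pt d) := by
  intro j j' h
  have h0 : pt d j 0 = pt d j' 0 := by rw [h]
  simp only [pt, if_true] at h0
  exact Int.pow_right_injective (by norm_num) h0

theorem avg_delta {d k : ℕ} (hk : 1 ≤ k) (r : ℝ) (x : Fin d → ℤ) (hx : x ∈ Sph d k r) :
    avg d k r (delta d) x = ((Npt d k r : ℂ))⁻¹ := by
  classical
  unfold avg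
  have h1 : ∑ᶠ m ∈ Sph d k r, delta d (x - m) = 1 := by
    rw [finsum_mem_eq_finite_toFinset_sum _ (sph_finite hk r)]
    rw [Finset.sum_eq_single x]
    · simp [delta]
    · intro m _ hm
      unfold delta
      rw [if_neg]
      intro h
      exact hm (sub_eq_zero.mp h).symm
    · intro h
      exact absurd ((sph_finite hk r).mem_toFinset.mpr hx) h
  rw [h1, mul_one]

/-- **Main computation.** For `k = 2 ^ a`, `a ≥ 2`, and `1 ≤ d < 4 k`, the maximal function of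
`δ_0` has infinite `ℓ^p` norm for every `0 < p < ∞`. -/
theorem maxi_delta {a d : ℕ} (ha : 2 ≤ a) (hd1 : 1 ≤ d) (hd : d < 2 ^ (a + 2)) {p : ℝ}
    (hp : 0 < p) : ∑' x, (maxi d (2 ^ a) (delta d) x) ^ p = ∞ := by
  classical
  obtain ⟨e, rfl⟩ : ∃ e, d = e + 1 := ⟨d - 1, by omega⟩
  have hk1 : 1 ≤ 2 ^ a := Nat.one_le_two_pow
  set N : ℕ := Npt (e + 1) (2 ^ a) 1 with hN
  have hNpos : 0 < N := by
    rw [hN]
    unfold Npt
    rw [Set.ncard_pos (sph_finite hk1 1)]
    refine ⟨pt e 0, ?_⟩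
    have := pt_mem (d := e) (a := a) (by omega) 0
    simpa using this
  have hlow : ∀ j : ℕ, ENNReal.ofReal ((N : ℝ)⁻¹) ≤ maxi (e + 1) (2 ^ a) (delta (e + 1)) (pt e j) := by
    intro j
    unfold maxi
    have hr : ((2 : ℝ) ^ j) ∈ Radii (e + 1) (2 ^ a) := by
      refine ⟨by positivity, ⟨2 ^ (j * 2 ^ a), ?_⟩, ?_⟩
      · rw [← pow_mul]; push_cast; ring
      · rw [npt_two_pow ha hd]; exact hNpos
    refine le_trans ?_ (le_iSup₂ (f := fun r (_ : r ∈ Radii (e + 1) (2 ^ a)) =>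
      ENNReal.ofReal ‖avg (e + 1) (2 ^ a) r (delta (e + 1)) (pt e j)‖) _ hr)
    rw [avg_delta hk1 _ _ (pt_mem (by omega) j), npt_two_pow ha hd, ← hN]
    simp
  have hinj := pt_injective e
  have h1 : ∑' j : ℕ, (maxi (e + 1) (2 ^ a) (delta (e + 1)) (pt e j)) ^ p ≤
      ∑' x, (maxi (e + 1) (2 ^ a) (delta (e + 1)) x) ^ p :=
    ENNReal.tsum_comp_le_tsum_of_injective hinj _
  have h2 : ∑' _ : ℕ, (ENNReal.ofReal ((N : ℝ)⁻¹)) ^ p ≤
      ∑' j : ℕ, (maxi (e + 1) (2 ^ a) (delta (e + 1)) (pt e j)) ^ p :=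
    ENNReal.tsum_le_tsum (fun j => ENNReal.rpow_le_rpow (hlow j) hp.le)
  have h3 : ∑' _ : ℕ, (ENNReal.ofReal ((N : ℝ)⁻¹)) ^ p = ∞ := by
    rw [ENNReal.tsum_const_eq_top_of_ne_zero]
    refine (ENNReal.rpow_pos ?_ ENNReal.ofReal_ne_top).ne'
    rw [ENNReal.ofReal_pos]
    have : (0 : ℝ) < N := by exact_mod_cast hNpos
    positivity
  exact top_le_iff.mp (h3 ▸ (h2.trans h1))

theorem norm_delta (d : ℕ) {p : ℝ} (hp : 0 < p) :
    ∑' x, (ENNReal.ofReal ‖delta d x‖) ^ p = 1 := by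
  classical
  rw [tsum_eq_single 0]
  · simp [delta]
  · intro x hx
    simp [delta, hx, hp]

theorem not_bounded {a d : ℕ} (ha : 2 ≤ a) (hd1 : 1 ≤ d) (hd : d < 2 ^ (a + 2)) {p : ℝ}
    (hp : 0 < p) : ¬ BoundedOn d (2 ^ a) p := by
  rintro ⟨C, hC⟩
  have h := hC (delta d) (by rw [norm_delta d hp]; simp)
  rw [maxi_delta ha hd1 hd hp, norm_delta d hp] at h
  rw [ENNReal.top_rpow_of_pos (by positivity)] at h
  simp at h

end Pool.Agent.Y332.KSph
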